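import Pool.Agent.R855.Sing.Final

/-!
The singular locus of the moduli space of degree `d` endomorphisms of `ℙ^N`, `N ≥ 2`, `d ≥ 2`,
over an algebraically closed field of characteristic `0`: a closed point of `M_d^N` is singular if
and only if it is the class of a map with nontrivial automorphism group.
-/

namespace Pool.Agent.Results.MP_807a54_ag.SingularLocus

open Pool.Agent.R855.Sing Pool.Agent.Helper819.Dyn

/-- Let `N, d ≥ 2` and let `M_d^N` be the spectrum of the ring of `PGL_{N+1}`-invariant regular
functions on `End_d^N`.  This ring is Noetherian, the closed points of `M_d^N` are the points given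
by maps, two maps give the same point if and only if they are conjugate, and the point given by a
map `F` is singular if and only if `F` has a nontrivial automorphism. -/
theorem result (k : Type) [Field k] [IsAlgClosed k] [CharZero k] (N d : ℕ) (hN : 2 ≤ N)
    (hd : 2 ≤ d) :
    IsNoetherianRing (InvRing k N d) ∧
    (∀ x : ModuliScheme k N d,
      IsClosed ({x} : Set (ModuliScheme k N d)) ↔ ∃ F : EndTuple k N d, x = point F) ∧
    (∀ F G : EndTuple k N d, point F = point G ↔ Rel k N d F G) ∧
    ∀ F : EndTuple k N d, IsSingularPoint (ModuliScheme k N d) (point F) ↔ HasAut F := by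
  obtain ⟨𝓓⟩ := exists_DD (k := k) (N := N) (d := d) (by omega)
  exact ⟨𝓓.noeth hd (powMap k N d (by omega)), closed_point_iff hd, point_eq_iff hd,
    singular_iff hN hd⟩

end Pool.Agent.Results.MP_807a54_ag.SingularLocus
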